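import Mathlib

set_option autoImplicit false

namespace Pool.Agent.Results.MP_69956f_gt.Ball

open Set Filter Topology

/-- A non-metrizable compact set of scatteredly continuous functions on the Baire space that is
homeomorphic to a compact convex subset of a product of continuum many lines. -/
theorem result : ∃ K : Set ((ℕ → ℕ) → ℝ),
    (∀ f ∈ K, ∀ A : Set (ℕ → ℕ), A.Nonempty → ∃ a ∈ A, ContinuousWithinAt f A a) ∧
    IsCompact K ∧
    (∃ (ι : Type) (C : Set (ι → ℝ)), Cardinal.mk ι = Cardinal.continuum ∧ IsCompact C ∧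
      Convex ℝ C ∧ Nonempty (K ≃ₜ C)) ∧
    ¬ TopologicalSpace.MetrizableSpace K := by
  classical
  let C : Set ((ℕ → ℕ) → ℝ) := {x | (∀ γ, 0 ≤ x γ) ∧ ∀ F : Finset (ℕ → ℕ), ∑ γ ∈ F, x γ ≤ 1}
  have hCc : IsCompact C := by
    refine (isCompact_univ_pi fun _ => isCompact_Icc (a := (0 : ℝ)) (b := 1)).of_isClosed_subset
      ?_ fun x hx γ _ => ⟨hx.1 γ, by simpa using hx.2 {γ}⟩
    simp only [C, ofPred_and, ofPred_forall]
    exact (isClosed_iInter fun γ => isClosed_le continuous_const (continuous_apply γ)).inter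
      (isClosed_iInter fun F => isClosed_le (by fun_prop) continuous_const)
  have hCv : Convex ℝ C := by
    intro x hx y hy a b ha hb hab
    refine ⟨fun γ => add_nonneg (mul_nonneg ha (hx.1 γ)) (mul_nonneg hb (hy.1 γ)), fun F => ?_⟩
    simp only [Pi.add_apply, Pi.smul_apply, smul_eq_mul, Finset.sum_add_distrib, ← Finset.mul_sum]
    nlinarith [hx.2 F, hy.2 F]
  let Φ : ((ℕ → ℕ) → ℝ) → (ℕ → ℕ) → ℝ := fun x y =>
    max (x (fun n => y (n + 1)) - 1 / ((y 0 : ℝ) + 1)) 0
  have hΦ : Continuous Φ := continuous_pi fun y => by fun_prop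
  have hinj : InjOn Φ C := by
    have key : ∀ x ∈ C, ∀ x' ∈ C, Φ x = Φ x' → ∀ γ, ¬ x γ < x' γ := by
      intro x hx x' _ h γ hlt
      obtain ⟨n, hn⟩ := exists_nat_one_div_lt (sub_pos.2 hlt)
      have : max (x γ - 1 / ((n : ℝ) + 1)) 0 = max (x' γ - 1 / ((n : ℝ) + 1)) 0 :=
        congrFun h (fun k => Nat.casesOn k n γ)
      have h0 : (0 : ℝ) < 1 / ((n : ℝ) + 1) := Nat.one_div_pos_of_nat
      have h1 : max (x γ - 1 / ((n : ℝ) + 1)) 0 ≤ x γ := max_le (by linarith) (hx.1 γ)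
      have h2 := le_max_left (x' γ - 1 / ((n : ℝ) + 1)) 0
      linarith
    exact fun x hx x' hx' h => funext fun γ =>
      le_antisymm (not_lt.1 (key x' hx' x hx h.symm γ)) (not_lt.1 (key x hx x' hx' h γ))
  have := isCompact_iff_compactSpace.1 hCc
  let e : C ≃ₜ Φ '' C := Continuous.homeoOfEquivCompactToT2 (f := Equiv.Set.imageOfInjOn Φ C hinj)
    ((hΦ.comp continuous_subtype_val).subtype_mk _)
  refine ⟨Φ '' C, ?_, hCc.image hΦ, ⟨ℕ → ℕ, C, by simp, hCc, hCv, ⟨e.symm⟩⟩, fun h => ?_⟩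
  · rintro _ ⟨x, hx, rfl⟩ A ⟨a, ha⟩
    have h0 : (0 : ℝ) < 1 / ((a 0 : ℝ) + 1) := Nat.one_div_pos_of_nat
    have h1 : {γ | 1 / ((a 0 : ℝ) + 1) < x γ}.Finite := by
      by_contra hn
      obtain ⟨F, f1, f2⟩ := Set.Infinite.exists_subset_card_eq hn (a 0 + 1)
      have h2 : ∑ _γ ∈ F, 1 / ((a 0 : ℝ) + 1) < ∑ γ ∈ F, x γ :=
        Finset.sum_lt_sum_of_nonempty (Finset.card_pos.1 (by omega)) fun γ hγ => f1 hγ
      rw [Finset.sum_const, f2, nsmul_eq_mul] at h2
      push_cast at h2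
      rw [mul_one_div_cancel (by positivity)] at h2
      exact absurd (hx.2 F) (not_le.2 h2)
    have h2 : {y : ℕ → ℕ | y 0 = a 0 ∧ Φ x y ≠ 0}.Finite := by
      refine Finite.of_finite_image (f := fun y n => y (n + 1)) (h1.subset ?_) ?_
      · rintro _ ⟨y, ⟨y1, y2⟩, rfl⟩
        by_contra hn
        refine y2 (max_eq_right ?_)
        rw [y1]
        exact sub_nonpos.2 (not_lt.1 hn)
      · intro y hy z hz e
        funext n
        cases n with
        | zero => exact hy.1.trans hz.1.symm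
        | succ n => exact congrFun e n
    have h3 : ∀ b : ℕ → ℕ, b 0 = a 0 → ∀ᶠ y in 𝓝 b, y 0 = a 0 ∧ (y = b ∨ Φ x y = 0) := by
      intro b hb
      have k0 : IsOpen ((fun y : ℕ → ℕ => y 0) ⁻¹' {a 0}) :=
        (isOpen_discrete {a 0}).preimage (continuous_apply 0)
      have k1 : ∀ᶠ y in 𝓝 b, y 0 = a 0 := k0.mem_nhds hb
      have k2 := (h2.subset (sdiff_subset (t := {b}))).isClosed.isOpen_compl.mem_nhds
        (show b ∉ _ from fun h => h.2 rfl)
      filter_upwards [k1, k2] with y y1 y2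
      refine ⟨y1, ?_⟩
      by_contra hn
      rw [not_or] at hn
      exact y2 ⟨⟨y1, hn.2⟩, hn.1⟩
    by_cases hc : ∃ b ∈ A, b 0 = a 0 ∧ Φ x b = 0
    · obtain ⟨b, b1, b2, b3⟩ := hc
      refine ⟨b, b1, (continuousAt_const (y := (0 : ℝ))).congr ?_ |>.continuousWithinAt⟩
      filter_upwards [h3 b b2] with y hy
      exact (hy.2.elim (fun e => e ▸ b3) id).symm
    · refine ⟨a, ha, (continuousWithinAt_const (b := Φ x a)).congr_of_eventuallyEq ?_ rfl⟩
      filter_upwards [nhdsWithin_le_nhds (h3 a rfl), self_mem_nhdsWithin] with y hy hyA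
      rcases hy.2 with e | e
      · rw [e]
      · exact absurd ⟨y, hyA, hy.1, e⟩ hc
  · have := e.isEmbedding.metrizableSpace
    let := TopologicalSpace.metrizableSpaceMetric C
    have h1 : (univ : Set (ℕ → ℕ)).PairwiseDisjoint fun γ => {x : C | 1 / 2 < x.1 γ} := by
      intro γ _ δ _ hne
      refine disjoint_left.2 fun x (a : 1 / 2 < x.1 γ) (b : 1 / 2 < x.1 δ) => ?_
      have := x.2.2 {γ, δ}
      rw [Finset.sum_pair hne] at this
      linarith
    have h2 := h1.countable_of_isOpen (fun γ _ => isOpen_lt continuous_const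
      ((continuous_apply γ).comp continuous_subtype_val)) fun γ _ =>
        ⟨⟨Pi.single γ 1, fun δ => by
          by_cases h : δ = γ <;> simp [h], fun F => by
          rw [Finset.sum_pi_single']
          split_ifs <;> simp⟩, by simp; norm_num⟩
    have h3 := Cardinal.mk_le_aleph0_iff.2 (countable_univ_iff.1 h2)
    exact absurd h3 (not_le.2 (by simpa using Cardinal.aleph0_lt_continuum))

end Pool.Agent.Results.MP_69956f_gt.Ball
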